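import Mathlib

set_option autoImplicit false

namespace Pool.Agent.H.MP_56a9b7_co

open Finset Function
open scoped Classical

section
variable {T : Type} [Fintype T]

def I (e e' : (T → T) × T) : Prop := ∀ s, s ≠ e.2 → e'.1 s = e.1 s

noncomputable def dl (a b : T) : ℕ := if a = b then 1 else 0

noncomputable def nd (a b : T) : ℕ := if a = b then 0 else 1

lemma line_sum (x : T → T) (t : T) (g : (T → T) → ℕ) :
    ∑ x', (if ∀ s, s ≠ t → x' s = x s then g x' else 0) = ∑ α, g (update x t α) := by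
  have : ∀ α, g (update x t α) = ∑ x', if x' = update x t α then g x' else 0 := by simp
  simp only [this]
  rw [sum_comm]
  refine sum_congr rfl fun x' _ => ?_
  simp only [eq_update_iff]
  by_cases h : ∀ s, s ≠ t → x' s = x s
  · simp only [if_pos h, and_iff_left h]
    simp
  · simp only [h, and_false, if_false, sum_const_zero]

lemma near_sum (x : T → T) (t : T) (f : (T → T) × T → ℕ) :
    ∑ w, (if I (x, t) w ∨ I w (x, t) then f w else 0) = ∑ α, ∑ s, f (update x t α, s) +
      ∑ s, ∑ β, nd s t * nd β (x s) * f (update x s β, s) := by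
  have e : ∀ w, (if I (x, t) w ∨ I w (x, t) then f w else 0) = (if I (x, t) w then f w else 0) +
      if I w (x, t) then (if I (x, t) w then 0 else f w) else 0 := by
    intro w
    by_cases h1 : I (x, t) w <;> by_cases h2 : I w (x, t) <;> simp [h1, h2]
  simp only [e, sum_add_distrib]
  congr 1
  · rw [← line_sum x t fun x' => ∑ s, f (x', s), Fintype.sum_prod_type]
    refine sum_congr rfl fun x' _ => ?_
    by_cases h : ∀ s, s ≠ t → x' s = x s
    · rw [if_pos h]
      exact sum_congr rfl fun s _ => if_pos h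
    · rw [if_neg h]
      exact sum_eq_zero fun s _ => if_neg h
  · rw [Fintype.sum_prod_type_right]
    refine sum_congr rfl fun s _ => ?_
    have := line_sum x s fun x' => if I (x, t) (x', s) then 0 else f (x', s)
    refine Eq.trans (sum_congr rfl fun x' _ => if_congr ?_ rfl rfl) (this.trans ?_)
    · exact forall_congr' fun z => imp_congr_right fun _ => eq_comm
    · refine sum_congr rfl fun β _ => ?_
      by_cases h1 : s = t
      · rw [if_pos (show I (x, t) (update x s β, s) from fun z hz => update_of_ne (h1 ▸ hz) _ _)]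
        simp [nd, h1]
      · by_cases h2 : β = x s
        · rw [if_pos (show I (x, t) (update x s β, s) from fun z _ => by simp [h2])]
          simp [nd, h2]
        · rw [if_neg (show ¬ I (x, t) (update x s β, s) from fun h => h2 (by simpa using h s h1))]
          simp [nd, h1, h2]

omit [Fintype T] in
lemma i11 (x : T → T) (t α α' s s' : T) :
    I (update x t α, s) (update x t α', s') ↔ α = α' ∨ s = t := by
  refine ⟨fun h => ?_, fun h z hz => ?_⟩
  · by_cases hs : s = t
    · exact Or.inr hs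
    · exact Or.inl (by simpa using (h t (Ne.symm hs)).symm)
  · rcases h with rfl | rfl
    · rfl
    · simp [update_of_ne hz]

omit [Fintype T] in
lemma i21 (x : T → T) (t α β s s' : T) (h1 : s' ≠ t) :
    I (update x s' β, s') (update x t α, s) ↔ α = x t := by
  refine ⟨fun h => by simpa [update_of_ne h1.symm] using h t h1.symm, fun h z hz => ?_⟩
  simp [h, update_of_ne hz]

omit [Fintype T] in
lemma i12 (x : T → T) (t α β s s' : T) (h1 : s' ≠ t) (h2 : β ≠ x s') :
    I (update x t α, s) (update x s' β, s') ↔ s = s' ∧ α = x t := by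
  refine ⟨fun h => ?_, fun h z hz => ?_⟩
  · by_cases hs : s = s'
    · subst hs
      exact ⟨rfl, by simpa [update_of_ne h1.symm] using (h t h1.symm).symm⟩
    · exact absurd (by simpa [update_of_ne h1] using h s' (Ne.symm hs)) h2
  · obtain ⟨rfl, h⟩ := h
    simp [h, update_of_ne hz]

omit [Fintype T] in
lemma i22 (x : T → T) (β β' s s' : T) (h2 : β' ≠ x s') :
    I (update x s β, s) (update x s' β', s') ↔ s = s' := by
  refine ⟨fun h => ?_, fun h z hz => ?_⟩
  · by_contra hs
    exact h2 (by simpa [update_of_ne (Ne.symm hs)] using h s' (Ne.symm hs))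
  · subst h
    simp [update_of_ne hz]

lemma sdl (a : T) : ∑ b, dl a b = 1 ∧ ∑ b, dl b a = 1 := by simp [dl]

lemma snd' {k : ℕ} (hk : Fintype.card T = k + 1) (a : T) : ∑ b, nd a b = k ∧ ∑ b, nd b a = k := by
  have h : ∑ b, (dl a b + nd a b) = k + 1 := by
    rw [← hk, ← card_univ, card_eq_sum_ones]
    exact sum_congr rfl fun b _ => by unfold dl nd; split_ifs <;> rfl
  rw [sum_add_distrib, (sdl a).1] at h
  have : ∑ b, nd b a = ∑ b, nd a b := sum_congr rfl fun b _ => by simp [nd, eq_comm]
  omega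

noncomputable def ib (P : Prop) : ℕ := if P then 1 else 0

def X (P Q : Prop) : Prop := ¬ (P ↔ Q)

noncomputable def ind (φ : Prop → Prop → Prop) (p q : (T → T) × T) : ℕ := ib (φ (I p q) (I q p))

lemma deg (φ : Prop → Prop → Prop) (h0 : ¬ φ False False) (x : T → T) (t : T) :
    ∑ w, ind φ (x, t) w = ∑ α, ∑ s, ib (φ True (α = x t ∨ s = t)) +
      ∑ s, ∑ β, nd s t * nd β (x s) * ib (φ False True) := by
  have : ∀ w, ind φ (x, t) w = if I (x, t) w ∨ I w (x, t) then ind φ (x, t) w else 0 := by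
    intro w
    by_cases h1 : I (x, t) w <;> by_cases h2 : I w (x, t) <;> simp [h1, h2, ind, ib, h0]
  rw [sum_congr rfl fun w _ => this w, near_sum]
  have e : (x, t) = (update x t (x t), t) := by simp
  congr 1
  · refine sum_congr rfl fun α _ => sum_congr rfl fun s _ => ?_
    rw [ind, e, i11, i11]
    simp
  · refine sum_congr rfl fun s _ => sum_congr rfl fun β _ => ?_
    by_cases h1 : s = t
    · simp [nd, h1]
    · by_cases h2 : β = x s
      · simp [nd, h2]
      · rw [ind, e, i12 _ _ _ _ _ _ h1 h2, i21 _ _ _ _ _ _ h1]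
        simp [Ne.symm h1]

lemma nbr (φ : Prop → Prop → Prop) (x : T → T) (t : T) :
    ∑ p, (if I (x, t) p ∨ I p (x, t) then ∑ q, if I (x, t) q ∨ I q (x, t) then ind φ p q else 0
      else 0) =
    ∑ α, ∑ s, (∑ α', ∑ s', ib (φ (α = α' ∨ s = t) (α' = α ∨ s' = t)) +
        ∑ s', ∑ β, nd s' t * nd β (x s') * ib (φ (s = s' ∧ α = x t) (α = x t))) +
      ∑ s, ∑ β, nd s t * nd β (x s) *
        (∑ α, ∑ s', ib (φ (α = x t) (s' = s ∧ α = x t)) +
        ∑ s', ∑ β', nd s' t * nd β' (x s') * ib (φ (s = s') (s' = s))) := by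
  simp only [near_sum]
  have z : ∀ (s β : T) (A B : ℕ), (s ≠ t → β ≠ x s → A = B) →
      nd s t * nd β (x s) * A = nd s t * nd β (x s) * B := by
    intro s β A B h
    by_cases h1 : s = t
    · simp [nd, h1]
    · by_cases h2 : β = x s
      · simp [nd, h2]
      · rw [h h1 h2]
  congr 1
  · refine sum_congr rfl fun α _ => sum_congr rfl fun s _ => ?_
    congr 1
    · exact sum_congr rfl fun α' _ => sum_congr rfl fun s' _ => by rw [ind, i11, i11]
    · exact sum_congr rfl fun s' _ => sum_congr rfl fun β _ => z _ _ _ _ fun h1 h2 => by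
        rw [ind, i12 _ _ _ _ _ _ h1 h2, i21 _ _ _ _ _ _ h1]
  · refine sum_congr rfl fun s _ => sum_congr rfl fun β _ => z _ _ _ _ fun h1 h2 => ?_
    congr 1
    · exact sum_congr rfl fun α _ => sum_congr rfl fun s' _ => by
        rw [ind, i12 _ _ _ _ _ _ h1 h2, i21 _ _ _ _ _ _ h1]
    · exact sum_congr rfl fun s' _ => sum_congr rfl fun β' _ => z _ _ _ _ fun h3 h4 => by
        rw [ind, i22 _ _ _ _ _ h4, i22 _ _ _ _ _ h2]

lemma counts {k : ℕ} (hk : Fintype.card T = k + 1) (e : (T → T) × T) :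
    ∑ w, ind And e w = 2 * k + 1 ∧ ∑ w, ind X e w = 2 * k ^ 2 ∧
    ∑ p, (if I e p ∨ I p e then ∑ q, if I e q ∨ I q e then ind And p q else 0 else 0) =
      2 * k ^ 3 + 6 * k ^ 2 + 4 * k + 1 ∧
    ∑ p, (if I e p ∨ I p e then ∑ q, if I e q ∨ I q e then ind X p q else 0 else 0) =
      4 * k ^ 3 + 2 * k ^ 2 := by
  obtain ⟨x, t⟩ := e
  have d1 := fun a : T => (sdl a).1
  have d2 := fun a : T => (sdl a).2
  have n1 := fun a : T => (snd' hk a).1
  have n2 := fun a : T => (snd' hk a).2
  have a1 : ∀ a b c d : T, ib (True ∧ (a = b ∨ c = d)) = dl a b + nd a b * dl c d ∧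
      ib (X True (a = b ∨ c = d)) = nd a b * nd c d := by
    intro a b c d
    by_cases h1 : a = b <;> by_cases h2 : c = d <;> simp [h1, h2, dl, nd, ib, X]
  have a2 : ib (False ∧ True) = 0 ∧ ib (X False True) = 1 := by simp [ib, X]
  have a3 : ∀ a b c d : T, ib ((a = b ∨ c = t) ∧ (b = a ∨ d = t)) =
      dl a b + nd a b * dl c t * dl d t ∧ ib (X (a = b ∨ c = t) (b = a ∨ d = t)) =
      nd a b * dl c t * nd d t + nd a b * nd c t * dl d t := by
    intro a b c d
    by_cases h1 : a = b <;> by_cases h2 : c = t <;> by_cases h3 : d = t <;>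
      simp [h1, h2, h3, dl, nd, eq_comm (a := b), ib, X]
  have a5 : ∀ a b c d : T, ib ((a = b ∧ c = d) ∧ c = d) = dl c d * dl a b ∧
      ib (c = d ∧ a = b ∧ c = d) = dl c d * dl a b ∧
      ib (X (a = b ∧ c = d) (c = d)) = dl c d * nd a b ∧
      ib (X (c = d) (a = b ∧ c = d)) = dl c d * nd a b := by
    intro a b c d
    by_cases h1 : a = b <;> by_cases h2 : c = d <;> simp [h1, h2, dl, nd, ib, X]
  have a6 : ∀ a b : T, ib (a = b ∧ b = a) = dl a b ∧ ib (X (a = b) (b = a)) = 0 := by
    intro a b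
    by_cases h1 : a = b <;> simp [h1, dl, eq_comm (a := b), ib, X]
  have c1 : ∀ (g : T → T → ℕ) (c : ℕ), (∀ b, ∑ a, g a b = c) →
      ∑ α, ∑ s, ∑ s', nd s' t * k * (dl α (x t) * g s s') = k * k * c := by
    intro g c hg
    rw [sum_congr rfl fun α _ => sum_comm]
    simp only [← mul_sum, ← sum_mul, hg, d2, n2, one_mul]
  have c2 : ∑ s, nd s t * k * (1 * 1 + ∑ s', nd s' t * k * dl s s') = k * (k * (1 + k)) := by
    nth_rewrite 3 [← n2 t]
    rw [sum_mul]
    refine sum_congr rfl fun s _ => ?_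
    by_cases h : s = t <;> simp [dl, nd, h]
  refine ⟨?_, ?_, ?_, ?_⟩
  · rw [deg _ (by simp)]
    simp only [a1, a2, sum_add_distrib, ← mul_sum, ← sum_mul, d2, n2, sum_const, card_univ,
      hk, smul_eq_mul]
    ring
  · rw [deg _ (by simp [X])]
    simp only [a1, a2, ← mul_sum, ← sum_mul, n2]
    ring
  · rw [nbr]
    simp only [a3, a5, a6, sum_add_distrib, ← mul_sum, ← sum_mul, d1, d2, n1, n2, sum_const,
      card_univ, hk, smul_eq_mul]
    rw [c1 _ _ d2, c2]
    ring
  · rw [nbr]
    simp only [a3, a5, a6, sum_add_distrib, ← mul_sum, ← sum_mul, d2, n1, n2, sum_const,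
      card_univ, hk, smul_eq_mul]
    rw [c1 _ _ n2]
    ring

end

end Pool.Agent.H.MP_56a9b7_co
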