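import Mathlib
import Pool.Agent.H.MP_56a9b7_co.Base

set_option autoImplicit false

namespace Pool.Agent.H.MP_56a9b7_co

open Finset Function
open scoped Classical

def Uni (d E : ℕ → ℕ) : Prop :=
  ∃ (V : Type) (_ : Fintype V) (_ : Nonempty V) (col : V → V → ℕ), (∀ x, col x x = 0) ∧
    (∀ x y, col x y = col y x) ∧ (∀ x y, col x y ≤ 3) ∧ ∀ v j, j ∈ Icc 1 3 →
      ∑ w, ib (col v w = j) = d j ∧
      ∑ x, ∑ y, ib (x = v ∨ col v x ≠ 0) * ib (y = v ∨ col v y ≠ 0) * ib (col x y = j) = E j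

lemma Uni.step {d E : ℕ → ℕ} (h : Uni d E) :
    Uni (fun j => d j + ib (j = 3)) (fun j => E j + 2 * ib (j = 3)) := by
  obtain ⟨V, i1, i2, col, h0, hs, h3, h⟩ := h
  refine ⟨V × Bool, inferInstance, inferInstance,
    fun p q => if p.2 = q.2 then col p.1 q.1 else if p.1 = q.1 then 3 else 0, by simp [h0],
    fun x y => by simp only [hs x.1, eq_comm (a := x.1), eq_comm (a := x.2)],
    fun x y => by dsimp only; split_ifs <;> simp [h3], fun ⟨v, b⟩ j hj => ?_⟩
  obtain ⟨e1, e2⟩ := h v j hj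
  have j0 : 0 ≠ j := by have := mem_Icc.1 hj; omega
  have s1 : ∀ y, ib ((if v = y then 3 else 0) = j) = dl v y * ib (j = 3) := fun y => by
    by_cases h : v = y <;> simp [h, dl, ib, j0, eq_comm (a := 3)]
  have s2 : ∀ y, ib (¬ (if v = y then 3 else 0) = 0) = dl v y := fun y => by
    by_cases h : v = y <;> simp [h, dl, ib]
  have s3 : ∑ x, ∑ y, ib (x = v ∨ ¬ col v x = 0) * dl v y * ib ((if x = y then 3 else 0) = j) =
      ib (j = 3) := by
    rw [sum_eq_single v (fun x _ hx => sum_eq_zero fun y _ => by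
      by_cases h : v = y
      · subst h; simp [ib, hx, j0]
      · simp [dl, h]) (by simp)]
    simp only [s1, true_or]
    simp [dl, ib]
  have s4 : ∑ x, ∑ y, dl v x * ib (y = v ∨ ¬ col v y = 0) * ib ((if x = y then 3 else 0) = j) =
      ib (j = 3) := by
    rw [← s3, sum_comm]
    exact sum_congr rfl fun x _ => sum_congr rfl fun y _ => by
      simp only [eq_comm (a := y) (b := x)]; ring
  have s5 : ∑ x, ∑ y, dl v x * dl v y * ib (col x y = j) = 0 := by
    refine sum_eq_zero fun x _ => sum_eq_zero fun y _ => ?_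
    by_cases h1 : v = x
    · by_cases h2 : v = y
      · simp [ib, ← h1, ← h2, h0, j0]
      · simp [dl, h2]
    · simp [dl, h1]
  cases b <;>
  · simp only [Fintype.sum_prod_type_right, Fintype.sum_bool, Bool.false_eq_true,
      Bool.true_eq_false, if_true, if_false, Prod.mk.injEq, and_true, and_false, false_or, ne_eq,
      sum_add_distrib, s1, s2, s3, s4, s5, ← sum_mul, (sdl _).1, e1] at e2 ⊢
    rw [e2]
    omega

lemma Uni.iter {d E : ℕ → ℕ} (h : Uni d E) (w : ℕ) :
    Uni (fun j => d j + w * ib (j = 3)) (fun j => E j + 2 * w * ib (j = 3)) := by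
  induction w with
  | zero => simpa using h
  | succ w ih =>
    convert ih.step using 2 <;> ring

lemma blow {T : Type} [Fintype T] [Inhabited T] {k : ℕ} (hk : Fintype.card T = k + 1) (u σ : ℕ)
    (hσ : σ ≤ u + 1) : ∃ d E, Uni d E ∧ d 1 + 1 = (2 * k + 1) * (u + 1) ∧
    d 2 = 2 * k ^ 2 * σ ∧ d 3 = 2 * k ^ 2 * (u + 1 - σ) ∧
    E 1 + (2 * k + 1 + 2 * k ^ 2) * (u + 1) = (2 * k ^ 3 + 6 * k ^ 2 + 4 * k + 1) * (u + 1) ^ 2 ∧
    E 2 = (4 * k ^ 3 + 2 * k ^ 2) * ((u + 1) * σ) ∧
    E 3 = (4 * k ^ 3 + 2 * k ^ 2) * ((u + 1) * (u + 1 - σ)) := by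
  have C := counts hk
  let col : ((T → T) × T) × Fin (u + 1) → ((T → T) × T) × Fin (u + 1) → ℕ := fun p q =>
    if p = q then 0 else if I p.1 q.1 ∧ I q.1 p.1 then 1 else
      if I p.1 q.1 ∨ I q.1 p.1 then (if (p.2 + q.2).val < σ then 2 else 3) else 0
  have refl : ∀ p : (T → T) × T, I p p := fun p _ _ => rfl
  have c0 : ∀ v x, ib (x = v ∨ col v x ≠ 0) = if I v.1 x.1 ∨ I x.1 v.1 then 1 else 0 := by
    intro v x
    by_cases h : v = x
    · simp [h, ib, refl]
    · by_cases h1 : I v.1 x.1 <;> by_cases h2 : I x.1 v.1 <;>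
        by_cases h3 : (v.2 + x.2).val < σ <;> simp [col, ib, h, h1, h2, h3, Ne.symm h]
  have c1 : ∀ x y, ib (col x y = 1) + dl x y = ind And x.1 y.1 ∧
      ib (col x y = 2) = ind X x.1 y.1 * ib ((x.2 + y.2).val < σ) ∧
      ib (col x y = 3) = ind X x.1 y.1 * ib (¬ (x.2 + y.2).val < σ) := by
    intro x y
    by_cases h : x = y
    · simp [h, ib, refl, col, ind, dl, X]
    · by_cases h1 : I x.1 y.1 <;> by_cases h2 : I y.1 x.1 <;>
        by_cases h3 : (x.2 + y.2).val < σ <;> simp [col, ib, ind, dl, X, h, h1, h2, h3]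
  have f2 : ∀ i : Fin (u + 1), ∑ j, ib ((i + j).val < σ) = σ := by
    intro i
    refine (Equiv.sum_comp (Equiv.addLeft i) fun j : Fin (u + 1) => ib (j.val < σ)).trans ?_
    refine Eq.trans ?_ (Fin.card_filter_val_lt.trans (min_eq_right hσ))
    rw [card_filter]
    exact sum_congr rfl fun j _ => by simp [ib]
  have f3 : ∀ i : Fin (u + 1), ∑ j, ib (¬ (i + j).val < σ) = u + 1 - σ := by
    intro i
    have : ∑ j, (ib ((i + j).val < σ) + ib (¬ (i + j).val < σ)) = ∑ j : Fin (u + 1), 1 :=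
      sum_congr rfl fun j _ => by by_cases h : (i + j).val < σ <;> simp [ib, h]
    rw [sum_add_distrib, f2] at this
    simp only [sum_const, card_univ, Fintype.card_fin, smul_eq_mul, mul_one] at this
    omega
  have g : ∀ (φ : Prop → Prop → Prop) (F : Fin (u + 1) → Fin (u + 1) → ℕ) (e : (T → T) × T),
      ∑ x : ((T → T) × T) × Fin (u + 1), ∑ y : ((T → T) × T) × Fin (u + 1),
        (if I e x.1 ∨ I x.1 e then 1 else 0) * (if I e y.1 ∨ I y.1 e then 1 else 0) *
          (ind φ x.1 y.1 * F x.2 y.2) =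
      (∑ p, if I e p ∨ I p e then ∑ q, if I e q ∨ I q e then ind φ p q else 0 else 0) *
        ∑ i, ∑ j, F i j := by
    intro φ F e
    rw [Fintype.sum_prod_type, sum_mul]
    refine sum_congr rfl fun p _ => ?_
    split_ifs
    · rw [mul_sum]
      refine sum_congr rfl fun i _ => ?_
      rw [Fintype.sum_prod_type, sum_mul_sum]
      exact sum_congr rfl fun q _ => sum_congr rfl fun j _ => by split_ifs <;> simp
    · simp
  have D1 : ∀ v, ∑ w, ib (col v w = 1) + 1 = (2 * k + 1) * (u + 1) := by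
    intro v
    refine (congrArg (_ + ·) (sdl v).1.symm).trans ?_
    rw [← sum_add_distrib, ← (C v.1).1]
    simp only [c1, Fintype.sum_prod_type, sum_const, card_univ, Fintype.card_fin, smul_eq_mul]
    simp only [← mul_sum, mul_comm]
  have E1 : ∀ v, ∑ x, ∑ y, ib (x = v ∨ col v x ≠ 0) * ib (y = v ∨ col v y ≠ 0) * ib (col x y = 1) +
      (2 * k + 1 + 2 * k ^ 2) * (u + 1) = (2 * k ^ 3 + 6 * k ^ 2 + 4 * k + 1) * (u + 1) ^ 2 := by
    intro v
    have a : ∑ x : ((T → T) × T) × Fin (u + 1), ∑ y : ((T → T) × T) × Fin (u + 1),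
        (if I v.1 x.1 ∨ I x.1 v.1 then 1 else 0) * (if I v.1 y.1 ∨ I y.1 v.1 then 1 else 0) *
          dl x y = (2 * k + 1 + 2 * k ^ 2) * (u + 1) := by
      rw [← (C v.1).1, ← (C v.1).2.1, ← sum_add_distrib, Fintype.sum_prod_type, sum_mul]
      refine sum_congr rfl fun p _ => ?_
      by_cases h1 : I v.1 p <;> by_cases h2 : I p v.1 <;> simp [dl, ind, ib, X, h1, h2]
    have b := g And (fun _ _ => 1) v.1
    rw [(C v.1).2.2.1] at b
    simp only [sum_const, card_univ, Fintype.card_fin, smul_eq_mul, mul_one] at b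
    rw [sq (u + 1), ← b, ← a]
    simp only [c0, ← sum_add_distrib, ← mul_add, c1]
  refine ⟨fun j => if j = 1 then (2 * k + 1) * (u + 1) - 1 else if j = 2 then 2 * k ^ 2 * σ else
      2 * k ^ 2 * (u + 1 - σ), fun j => if j = 1 then (2 * k ^ 3 + 6 * k ^ 2 + 4 * k + 1) *
      (u + 1) ^ 2 - (2 * k + 1 + 2 * k ^ 2) * (u + 1) else if j = 2 then
      (4 * k ^ 3 + 2 * k ^ 2) * ((u + 1) * σ) else (4 * k ^ 3 + 2 * k ^ 2) * ((u + 1) * (u + 1 - σ)),
    ⟨_, inferInstance, inferInstance, col, by simp [col], fun x y => ?_, fun x y => ?_,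
      fun v j hj => ?_⟩, ?_, rfl, rfl, ?_, rfl, rfl⟩
  · simp only [col, eq_comm (a := x), and_comm (a := I x.1 y.1), or_comm (a := I x.1 y.1),
      add_comm x.2]
  · simp only [col]
    split_ifs <;> omega
  · rw [mem_Icc] at hj
    obtain rfl | rfl | rfl : j = 1 ∨ j = 2 ∨ j = 3 := by omega
    · have := D1 v
      have := E1 v
      simp only [if_true]
      omega
    · simp only [c0, c1]
      rw [g X fun i j => ib ((i + j).val < σ), Fintype.sum_prod_type]
      simp [← mul_sum, ← sum_mul, C, f2]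
    · simp only [c0, c1]
      rw [g X fun i j => ib (¬ (i + j).val < σ), Fintype.sum_prod_type]
      simp only [← mul_sum, ← sum_mul, C, f3]
      simp
  · have := D1 default
    simp only [if_true]
    omega
  · have := E1 default
    simp only [if_true]
    omega

end Pool.Agent.H.MP_56a9b7_co
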