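import Mathlib

set_option autoImplicit false

namespace Pool.Agent.H.MP_56a9b7_co

open Finset

lemma goodman {V : Type} [Fintype V] (p : V → ℤ) (r b : V → V → ℤ) (a : ℤ)
    (hp : ∀ x, p x = 0 ∨ p x = 1) (hb : ∀ x y, b x y = b y x) (b0 : ∀ x y, b x y = 0 ∨ b x y = 1)
    (h1 : ∀ x y, r x y + b x y ≤ 1) (ha : ∑ x, p x = a) :
    a * (4 * ∑ x, ∑ y, p x * p y * r x y + 6 * ∑ x, ∑ y, p x * p y * b x y) ≤
      5 * a ^ 3 + 2 * ∑ x, ∑ y, ∑ z, p x * p y * p z * (b x y * b x z * b y z) := by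
  have p0 : ∀ x, 0 ≤ p x := fun x => by rcases hp x with h | h <;> simp [h]
  have a0 : 0 ≤ a := ha ▸ sum_nonneg fun x _ => p0 x
  set d := fun x => ∑ y, p y * b x y with hd
  have e1 : ∑ x, ∑ y, p x * p y * b x y = ∑ x, p x * d x := by
    simp only [hd, mul_sum, mul_assoc]
  have e2 : ∑ x, ∑ y, p x * p y * r x y + ∑ x, ∑ y, p x * p y * b x y ≤ a * a := by
    rw [← ha, sum_mul_sum, ← sum_add_distrib]
    refine sum_le_sum fun x _ => ?_
    rw [← sum_add_distrib]
    refine sum_le_sum fun y _ => ?_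
    nlinarith [mul_nonneg (p0 x) (p0 y), h1 x y]
  have e3 : ∑ x, ∑ y, p x * p y * b x y * d x = ∑ x, p x * d x ^ 2 := by
    refine sum_congr rfl fun x _ => ?_
    rw [← sum_mul, sq, ← mul_assoc]
    simp only [hd, mul_sum, mul_assoc]
  have e4 : ∑ x, ∑ y, p x * p y * b x y * d y = ∑ x, p x * d x ^ 2 := by
    rw [← e3, sum_comm]
    exact sum_congr rfl fun x _ => sum_congr rfl fun y _ => by rw [hb y x]; ring
  have e5 : ∑ x, ∑ y, p x * p y * b x y * d x + ∑ x, ∑ y, p x * p y * b x y * d y ≤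
      ∑ x, ∑ y, ∑ z, p x * p y * p z * (b x y * b x z * b y z) +
        a * ∑ x, ∑ y, p x * p y * b x y := by
    simp only [mul_sum, ← sum_add_distrib]
    refine sum_le_sum fun x _ => sum_le_sum fun y _ => ?_
    rw [← ha, sum_mul]
    simp only [hd, mul_sum, ← sum_add_distrib]
    refine sum_le_sum fun z _ => ?_
    rcases hp x with h1 | h1 <;> rcases hp y with h2 | h2 <;> rcases hp z with h3 | h3 <;>
      rcases b0 x y with h4 | h4 <;> rcases b0 x z with h5 | h5 <;> rcases b0 y z with h6 | h6 <;>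
      simp [h1, h2, h3, h4, h5, h6]
  have e6 : 0 ≤ 4 * ∑ x, p x * d x ^ 2 - 4 * a * ∑ x, p x * d x + a ^ 2 * ∑ x, p x := by
    simp only [mul_sum, ← sum_sub_distrib, ← sum_add_distrib]
    exact sum_nonneg fun x _ => by nlinarith [mul_nonneg (p0 x) (sq_nonneg (2 * d x - a))]
  rw [e3, e4] at e5
  rw [ha, ← e1] at e6
  nlinarith [mul_le_mul_of_nonneg_left e2 a0]

lemma core {V : Type} [Fintype V] [DecidableEq V] (r b : V → V → ℤ) (a β : ℤ)
    (hr : ∀ x y, r x y = r y x) (hb : ∀ x y, b x y = b y x)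
    (r0 : ∀ x y, r x y = 0 ∨ r x y = 1) (b0 : ∀ x y, b x y = 0 ∨ b x y = 1)
    (h1 : ∀ x y, (if x = y then 1 else 0) + r x y + b x y ≤ 1)
    (ha : ∀ x, ∑ y, r x y = a) (hβ : ∀ x, ∑ y, b x y = β) (a0 : 0 < a)
    (hV : 0 < Fintype.card V)
    (h : ∀ v, ∑ x, ∑ y, ((if v = x then 1 else 0) + r v x + b v x) *
        ((if v = y then 1 else 0) + r v y + b v y) * b x y ≤
      2 * ∑ x, ∑ y, ((if v = x then 1 else 0) + r v x + b v x) *
        ((if v = y then 1 else 0) + r v y + b v y) * r x y) :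
    4 * β ≤ 8 * a + 5 * a ^ 2 := by
  have h2 : ∀ x y, r x y + b x y ≤ 1 := fun x y => by
    have := h1 x y
    split_ifs at this <;> omega
  have ex : ∀ (s : V → V → ℤ) (v : V), (∀ x y, s x y = s y x) → s v v = 0 →
      (∀ y, (r v y + b v y) * s v y = s v y) →
      ∑ x, ∑ y, ((if v = x then 1 else 0) + r v x + b v x) *
        ((if v = y then 1 else 0) + r v y + b v y) * s x y =
      2 * ∑ y, s v y + (∑ x, ∑ y, r v x * r v y * s x y + ∑ x, ∑ y, r v x * b v y * s x y +
        ∑ x, ∑ y, b v x * r v y * s x y + ∑ x, ∑ y, b v x * b v y * s x y) := by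
    intro s v hs h0 hm
    have e1 : ∑ x, ∑ y, (if v = x then 1 else 0) * (if v = y then 1 else 0) * s x y = 0 := by
      simp [h0]
    have e2 : ∑ x, ∑ y, (if v = x then 1 else 0) * (r v y + b v y) * s x y = ∑ y, s v y := by
      rw [sum_eq_single v (fun x _ hx => by simp [hx.symm]) (by simp)]
      simp [hm]
    have e3 : ∑ x, ∑ y, (r v x + b v x) * (if v = y then 1 else 0) * s x y = ∑ y, s v y := by
      refine sum_congr rfl fun x _ => ?_
      rw [sum_eq_single v (fun y _ hy => by simp [hy.symm]) (by simp)]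
      simp [hs x v, hm]
    rw [two_mul]
    refine Eq.trans ?_ (congrArg₂ (· + ·) ((congrArg₂ (· + ·) e1 (congrArg₂ (· + ·) e2 e3)).trans
      (zero_add _)) rfl)
    simp only [← sum_add_distrib]
    exact sum_congr rfl fun x _ => sum_congr rfl fun y _ => by ring
  have rv : ∀ v, r v v = 0 ∧ b v v = 0 := fun v => by
    have := h1 v v
    rcases r0 v v with h | h <;> rcases b0 v v with h' | h' <;> simp_all
  have mr : ∀ v y, (r v y + b v y) * r v y = r v y ∧ (r v y + b v y) * b v y = b v y := by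
    intro v y
    have := h2 v y
    rcases r0 v y with h | h <;> rcases b0 v y with h' | h' <;> simp_all
  have S := sum_le_sum (s := univ) fun v _ => h v
  simp only [fun v => ex r v hr (rv v).1 fun y => (mr v y).1,
    fun v => ex b v hb (rv v).2 fun y => (mr v y).2, ha, hβ] at S
  rw [← mul_sum] at S
  simp only [sum_add_distrib, sum_const, card_univ, nsmul_eq_mul] at S
  have c1 : ∀ f g k : V → V → ℤ, (∀ x y, k x y = k y x) →
      ∑ v, ∑ x, ∑ y, f v x * g v y * k x y = ∑ v, ∑ x, ∑ y, g v x * f v y * k x y := by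
    intro f g k hk
    refine sum_congr rfl fun v _ => ?_
    rw [sum_comm]
    exact sum_congr rfl fun x _ => sum_congr rfl fun y _ => by rw [hk y x]; ring
  have c2 : ∀ f g k : V → V → ℤ, (∀ x y, f x y = f y x) →
      ∑ v, ∑ x, ∑ y, f v x * g v y * k x y = ∑ v, ∑ x, ∑ y, f v x * k v y * g x y := by
    intro f g k hf
    rw [sum_comm]
    exact sum_congr rfl fun x _ => sum_congr rfl fun v _ => sum_congr rfl fun y _ => by
      rw [hf v x]; ring
  rw [c1 b r b hb, c1 b r r hr, c2 r b r hr, c2 b b r hb, c1 b r b hb] at S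
  have G := sum_le_sum (s := univ) fun v _ => goodman (r v) r b a (r0 v) hb b0 h2 (ha v)
  have t : ∑ v, ∑ x, ∑ y, ∑ z, r v x * r v y * r v z * (b x y * b x z * b y z) ≤
      a * ∑ x, ∑ y, ∑ z, b x y * b x z * b y z := by
    rw [sum_comm, mul_sum]
    refine sum_le_sum fun x _ => ?_
    rw [sum_comm, mul_sum]
    refine sum_le_sum fun y _ => ?_
    rw [sum_comm, mul_sum]
    refine sum_le_sum fun z _ => ?_
    rw [← ha x, sum_mul]
    refine sum_le_sum fun v _ => ?_
    rw [hr x v]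
    rcases r0 v x with h1 | h1 <;> rcases r0 v y with h2 | h2 <;> rcases r0 v z with h3 | h3 <;>
      rcases b0 x y with h4 | h4 <;> rcases b0 x z with h5 | h5 <;> rcases b0 y z with h6 | h6 <;>
      simp [h1, h2, h3, h4, h5, h6]
  simp only [sum_add_distrib, ← mul_sum, sum_const, card_univ, nsmul_eq_mul] at G
  have n0 : (0 : ℤ) < Fintype.card V := by exact_mod_cast hV
  have key : a * (Fintype.card V : ℤ) * (4 * β) ≤ a * Fintype.card V * (8 * a + 5 * a ^ 2) := by
    nlinarith [mul_le_mul_of_nonneg_left S a0.le]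
  exact le_of_mul_le_mul_left key (mul_pos a0 n0)

end Pool.Agent.H.MP_56a9b7_co
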